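import Pool.Agent.Helper20.SW.Cone

/-!
# MP_47cd0b: few fat lines have most of their points in a small set
-/

set_option autoImplicit false

namespace H20SW

open Finset Classical

namespace Cone

variable {Y U E G P R : Type} [Fintype Y] [Fintype U] [Fintype E]

/-- the points in pairs of the family -/
noncomputable def Q1 (J : Finset E) (a b : E → Y) : Finset Y :=
  univ.filter fun y => ∃ m ∈ J, a m = y ∨ b m = y

theorem mem_Q1 {J : Finset E} {a b : E → Y} {y : Y} : y ∈ Q1 J a b ↔ ∃ m ∈ J, a m = y ∨ b m = y := by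
  simp [Q1]

theorem card_Q1 (J : Finset E) (a b : E → Y) : (Q1 J a b).card ≤ 2 * J.card := by
  have h : Q1 J a b ⊆ J.image a ∪ J.image b := by
    intro y hy
    obtain ⟨m, hm, h | h⟩ := mem_Q1.mp hy
    · exact mem_union_left _ (mem_image.mpr ⟨m, hm, h⟩)
    · exact mem_union_right _ (mem_image.mpr ⟨m, hm, h⟩)
  have h1 := card_le_card h
  have h2 := card_union_le (J.image a) (J.image b)
  have h3 := card_image_le (s := J) (f := a)
  have h4 := card_image_le (s := J) (f := b)
  omega

/-- number of points of `l` off `Q1` -/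
noncomputable def offQ (C : Cone Y U E G P R) (J : Finset E) (a b : E → Y) (l : E) : ℕ :=
  (univ.filter fun y => C.on y l ∧ y ∉ Q1 J a b).card

/-- number of points of `l` in `Q1` -/
noncomputable def inQ (C : Cone Y U E G P R) (J : Finset E) (a b : E → Y) (l : E) : ℕ :=
  (univ.filter fun y => C.on y l ∧ y ∈ Q1 J a b).card

theorem inQ_add_offQ (C : Cone Y U E G P R) (J : Finset E) (a b : E → Y) (l : E) :
    C.inQ J a b l + C.offQ J a b l = C.tl l := by
  have h := card_filter_add_card_filter_not (s := univ.filter fun y => C.on y l)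
    (fun y => y ∈ Q1 J a b)
  rw [filter_filter, filter_filter] at h
  exact h

/-- the broken fat lines -/
noncomputable def broken (C : Cone Y U E G P R) (p : ℕ) (J : Finset E) (a b : E → Y) : Finset E :=
  univ.filter fun l => p ≤ C.tl l ∧ 2 * C.offQ J a b l < p

theorem mem_broken {C : Cone Y U E G P R} {p : ℕ} {J : Finset E} {a b : E → Y} {l : E} :
    l ∈ C.broken p J a b ↔ p ≤ C.tl l ∧ 2 * C.offQ J a b l < p := by
  simp [broken]

/-- a broken line has more than `p / 2` points in `Q1` -/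
theorem broken_inQ {C : Cone Y U E G P R} {p : ℕ} {J : Finset E} {a b : E → Y} {l : E}
    (h : l ∈ C.broken p J a b) : p + 1 ≤ 2 * C.inQ J a b l := by
  have h1 := mem_broken.mp h
  have h2 := C.inQ_add_offQ J a b l
  omega

/-- **The broken lines are few.** -/
theorem broken_card (C : Cone Y U E G P R) (p : ℕ) (J : Finset E) (a b : E → Y) :
    (p ^ 2 - 1) * (C.broken p J a b).card ≤ 16 * J.card ^ 2 := by
  rcases Nat.eq_zero_or_pos p with rfl | hp
  · simp
  have h1 : ∑ l ∈ C.broken p J a b,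
      (univ.filter fun y => C.on y l ∧ y ∈ Q1 J a b).offDiag.card ≤ (Q1 J a b).offDiag.card := by
    rw [← card_biUnion]
    · refine card_le_card (biUnion_subset.mpr fun l _ => ?_)
      intro q hq
      rw [mem_offDiag, mem_filter, mem_filter] at hq
      exact mem_offDiag.mpr ⟨hq.1.2.2, hq.2.1.2.2, hq.2.2⟩
    · intro l _ m _ hlm
      rw [Function.onFun, disjoint_left]
      intro q hq hq'
      rw [mem_offDiag, mem_filter, mem_filter] at hq hq'
      exact hlm (C.uniq q.1 q.2 l m hq.2.2 hq.1.2.1 hq.2.1.2.1 hq'.1.2.1 hq'.2.1.2.1)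
  have h2 : ∑ _l ∈ C.broken p J a b, (p ^ 2 - 1) ≤ ∑ l ∈ C.broken p J a b,
      4 * (univ.filter fun y => C.on y l ∧ y ∈ Q1 J a b).offDiag.card := by
    refine sum_le_sum fun l hl => ?_
    have h3 := broken_inQ hl
    have h4 : C.inQ J a b l = (univ.filter fun y => C.on y l ∧ y ∈ Q1 J a b).card := rfl
    rw [offDiag_card, ← h4]
    obtain ⟨q, hq⟩ : ∃ q, C.inQ J a b l = q + 1 := ⟨C.inQ J a b l - 1, by omega⟩
    rw [hq] at h3 ⊢
    obtain ⟨p', rfl⟩ : ∃ p', p = p' + 1 := ⟨p - 1, by omega⟩
    have e1 : (p' + 1) ^ 2 - 1 = p' * (p' + 2) := by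
      have : (p' + 1) ^ 2 = p' * (p' + 2) + 1 := by ring
      omega
    have e2 : (q + 1) * (q + 1) - (q + 1) = q * (q + 1) := by
      have : (q + 1) * (q + 1) = q * (q + 1) + (q + 1) := by ring
      omega
    rw [e1, e2]
    have h5 : p' ≤ 2 * q := by omega
    nlinarith
  rw [sum_const, smul_eq_mul, ← mul_sum] at h2
  have h5 : (Q1 J a b).offDiag.card ≤ 4 * J.card ^ 2 := by
    rw [offDiag_card]
    have h6 := card_Q1 J a b
    calc (Q1 J a b).card * (Q1 J a b).card - (Q1 J a b).card
        ≤ (Q1 J a b).card * (Q1 J a b).card := Nat.sub_le _ _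
      _ ≤ (2 * J.card) * (2 * J.card) := Nat.mul_le_mul h6 h6
      _ = 4 * J.card ^ 2 := by ring
  calc (p ^ 2 - 1) * (C.broken p J a b).card = (C.broken p J a b).card * (p ^ 2 - 1) := mul_comm _ _
    _ ≤ 4 * _ := h2
    _ ≤ 4 * (Q1 J a b).offDiag.card := Nat.mul_le_mul_left _ h1
    _ ≤ 4 * (4 * J.card ^ 2) := Nat.mul_le_mul_left _ h5
    _ = 16 * J.card ^ 2 := by ring

/-- few broken lines on a point: the broken lines on `y` are disjoint off `y` in `Q1` -/
theorem broken_on (C : Cone Y U E G P R) (p : ℕ) (J : Finset E) (a b : E → Y) (y : Y) :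
    (p - 1) * ((C.broken p J a b).filter fun l => C.on y l).card ≤ 4 * J.card := by
  have h1 : ∑ l ∈ (C.broken p J a b).filter (fun l => C.on y l),
      ((univ.filter fun x => C.on x l ∧ x ∈ Q1 J a b).erase y).card ≤ (Q1 J a b).card := by
    rw [← card_biUnion]
    · refine card_le_card (biUnion_subset.mpr fun l _ => ?_)
      intro q hq
      rw [mem_erase, mem_filter] at hq
      exact hq.2.2.2
    · intro l hl m hm hlm
      rw [Function.onFun, disjoint_left]
      intro q hq hq'
      rw [mem_erase, mem_filter] at hq hq'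
      exact hlm (C.uniq q y l m hq.1 hq.2.2.1 (mem_filter.mp hl).2 hq'.2.2.1 (mem_filter.mp hm).2)
  have h2 : ∑ _l ∈ (C.broken p J a b).filter (fun l => C.on y l), (p - 1) ≤
      ∑ l ∈ (C.broken p J a b).filter (fun l => C.on y l),
        2 * ((univ.filter fun x => C.on x l ∧ x ∈ Q1 J a b).erase y).card := by
    refine sum_le_sum fun l hl => ?_
    have h3 := broken_inQ (mem_filter.mp hl).1
    have h4 : C.inQ J a b l = (univ.filter fun y => C.on y l ∧ y ∈ Q1 J a b).card := rfl
    have h5 := pred_card_le_card_erase (s := univ.filter fun x => C.on x l ∧ x ∈ Q1 J a b) (a := y)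
    rw [← h4] at h5
    omega
  rw [sum_const, smul_eq_mul, ← mul_sum] at h2
  have h6 := card_Q1 J a b
  calc (p - 1) * ((C.broken p J a b).filter fun l => C.on y l).card
      = ((C.broken p J a b).filter fun l => C.on y l).card * (p - 1) := mul_comm _ _
    _ ≤ 2 * _ := h2
    _ ≤ 2 * (Q1 J a b).card := Nat.mul_le_mul_left _ h1
    _ ≤ 2 * (2 * J.card) := Nat.mul_le_mul_left _ h6
    _ = 4 * J.card := by ring

/-- a family with at most five pairs has no broken lines when `p ≥ 20` -/
theorem broken_empty (C : Cone Y U E G P R) {p : ℕ} (hp : 20 ≤ p) {J : Finset E} (a b : E → Y)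
    (hJ : J.card ≤ 5) : C.broken p J a b = ∅ := by
  rw [← card_eq_zero]
  have h1 := C.broken_card p J a b
  by_contra h0
  have h2 : 1 ≤ (C.broken p J a b).card := Nat.one_le_iff_ne_zero.mpr h0
  have h3 : J.card ^ 2 ≤ 5 ^ 2 := Nat.pow_le_pow_left hJ 2
  have h4 : (20 : ℕ) ^ 2 ≤ p ^ 2 := Nat.pow_le_pow_left hp 2
  -- more than `p / 2` points in `Q1`, but `Q1` has at most ten points
  have h5 : 401 ≤ (p ^ 2 - 1) * (C.broken p J a b).card + 2 := by
    have : (p ^ 2 - 1) * 1 ≤ (p ^ 2 - 1) * (C.broken p J a b).card := Nat.mul_le_mul_left _ h2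
    omega
  obtain ⟨l, hl⟩ := card_pos.mp h2
  have h6 := broken_inQ hl
  have h7 : C.inQ J a b l ≤ (Q1 J a b).card := card_le_card fun y hy => (mem_filter.mp hy).2.2
  have h8 := card_Q1 J a b
  omega

end Cone

end H20SW
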