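import Mathlib

/-!
# MP_47cd0b: a counting inequality for group divisible linear spaces

Points `P` with classes `cl`, blocks `B`: two points of one class are on no block, two points of
different classes are on exactly one block. If `t0` is the size of a largest block then the sum of
the block sizes is at least `t0 (|P| + 1 - t0)`, and if `2 t0 ≤ |P| + 1` then the sum of
`1 / (|P| + 1 - |l|)` over the blocks `l` is at least `1`.
-/

set_option autoImplicit false

namespace Pool.Agent.Helper65.LS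

open Finset

section

variable {X C : Type*} [DecidableEq X] [DecidableEq C]

theorem gdd_count (P : Finset X) (cl : X → C) (B : Finset (Finset X)) (t0 : ℕ)
    (hB : ∀ l ∈ B, l ⊆ P ∧ 2 ≤ l.card ∧ l.card ≤ t0)
    (hcl : ∀ l ∈ B, ∀ x ∈ l, ∀ y ∈ l, x ≠ y → cl x ≠ cl y)
    (hex : ∀ x ∈ P, ∀ y ∈ P, cl x ≠ cl y → ∃ l ∈ B, x ∈ l ∧ y ∈ l)
    (huniq : ∀ l ∈ B, ∀ l' ∈ B, ∀ x ∈ l, ∀ y ∈ l, x ∈ l' → y ∈ l' → x ≠ y → l = l')
    (h0 : ∃ l ∈ B, l.card = t0) :
    t0 * (P.card + 1) ≤ ∑ l ∈ B, l.card + t0 * t0 := by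
  classical
  obtain ⟨l0, hl0, hl0c⟩ := h0
  have hl0P := (hB l0 hl0).1
  have ht2 : 2 ≤ t0 := hl0c ▸ (hB l0 hl0).2.1
  -- double counting
  have hT : ∑ l ∈ B, l.card = ∑ x ∈ P, (B.filter (fun l => x ∈ l)).card := by
    have h1 : ∀ l ∈ B, l.card = (P.filter (fun x => x ∈ l)).card := by
      intro l hl
      congr 1
      ext x
      simp only [mem_filter]
      exact ⟨fun h => ⟨(hB l hl).1 h, h⟩, fun h => h.2⟩
    rw [sum_congr rfl h1]
    simp only [card_eq_sum_ones, sum_filter]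
    exact sum_comm
  -- points off `l0`
  have ha : ∀ x ∈ P, x ∉ l0 → t0 ≤ (B.filter (fun l => x ∈ l)).card + 1 := by
    intro x hx hxl
    have h1 : (l0.filter (fun y => cl x ≠ cl y)).card ≤ (B.filter (fun l => x ∈ l)).card := by
      have hch : ∀ y ∈ l0.filter (fun y => cl x ≠ cl y), ∃ l ∈ B, x ∈ l ∧ y ∈ l := by
        intro y hy
        rw [mem_filter] at hy
        exact hex x hx y (hl0P hy.1) hy.2
      choose! f hf using hch
      refine card_le_card_of_injOn f (fun y hy => ?_) ?_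
      · have := hf y hy
        simp only [coe_filter, Set.mem_ofPred_eq]
        exact ⟨this.1, this.2.1⟩
      · intro y hy z hz hyz
        by_contra hne
        have hy' := hf y hy
        have hz' := hf z hz
        rw [← hyz] at hz'
        have hyl := (mem_filter.mp hy).1
        have hzl := (mem_filter.mp hz).1
        have := huniq l0 hl0 (f y) hy'.1 y hyl z hzl hy'.2.2 hz'.2.2 hne
        exact hxl (this ▸ hy'.2.1)
    have h2 : (l0.filter (fun y => ¬ cl x ≠ cl y)).card ≤ 1 := by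
      rw [card_le_one]
      intro y hy z hz
      rw [mem_filter, not_not] at hy hz
      by_contra hne
      exact hcl l0 hl0 y hy.1 z hz.1 hne (hy.2.symm.trans hz.2)
    have h3 := card_filter_add_card_filter_not (s := l0) (fun y => cl x ≠ cl y)
    omega
  -- all points
  have hb : ∀ x ∈ P, P.card ≤ (P.filter (fun y => cl y = cl x)).card +
      (B.filter (fun l => x ∈ l)).card * (t0 - 1) := by
    intro x hx
    have h1 : P ⊆ P.filter (fun y => cl y = cl x) ∪
        (B.filter (fun l => x ∈ l)).biUnion (fun l => l.erase x) := by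
      intro y hy
      rw [mem_union, mem_filter]
      by_cases hyx : cl y = cl x
      · exact Or.inl ⟨hy, hyx⟩
      · right
        obtain ⟨l, hl, hxl, hyl⟩ := hex x hx y hy (fun h => hyx h.symm)
        rw [mem_biUnion]
        refine ⟨l, mem_filter.mpr ⟨hl, hxl⟩, mem_erase.mpr ⟨?_, hyl⟩⟩
        rintro rfl
        exact hyx rfl
    refine (card_le_card h1).trans ((card_union_le _ _).trans ?_)
    refine Nat.add_le_add_left (card_biUnion_le_card_mul _ _ _ ?_) _
    intro l hl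
    rw [mem_filter] at hl
    rw [card_erase_of_mem hl.2]
    have := (hB l hl.1).2.2
    omega
  have hc : ∑ x ∈ l0, (P.filter (fun y => cl y = cl x)).card ≤ P.card := by
    rw [← card_biUnion]
    · exact card_le_card (biUnion_subset.mpr fun x _ => filter_subset _ _)
    · intro x hx z hz hne
      rw [Function.onFun, disjoint_left]
      intro y hy hy'
      rw [mem_filter] at hy hy'
      exact hcl l0 hl0 x hx z hz hne (hy.2.symm.trans hy'.2)
  have hd : P.card ≤ ∑ x ∈ l0, (B.filter (fun l => x ∈ l)).card := by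
    have h1 : ∑ _x ∈ l0, P.card ≤ ∑ x ∈ l0, ((P.filter (fun y => cl y = cl x)).card +
        (B.filter (fun l => x ∈ l)).card * (t0 - 1)) :=
      sum_le_sum fun x hx => hb x (hl0P hx)
    rw [sum_const, smul_eq_mul, hl0c, sum_add_distrib, ← sum_mul] at h1
    obtain ⟨u, rfl⟩ : ∃ u, t0 = u + 1 := ⟨t0 - 1, by omega⟩
    have hu : 0 < u := by omega
    have h2 : u * P.card ≤ u * ∑ x ∈ l0, (B.filter (fun l => x ∈ l)).card := by
      have e1 : u + 1 - 1 = u := by omega
      rw [e1] at h1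
      nlinarith
    exact Nat.le_of_mul_le_mul_left h2 hu
  have he : (P.card - t0) * (t0 - 1) ≤ ∑ x ∈ P \ l0, (B.filter (fun l => x ∈ l)).card := by
    have h1 : (P \ l0).card = P.card - t0 := by
      rw [card_sdiff_of_subset hl0P, hl0c]
    rw [← h1, ← smul_eq_mul, ← sum_const]
    refine sum_le_sum fun x hx => ?_
    rw [mem_sdiff] at hx
    have := ha x hx.1 hx.2
    omega
  have hf : ∑ l ∈ B, l.card = ∑ x ∈ P \ l0, (B.filter (fun l => x ∈ l)).card +
      ∑ x ∈ l0, (B.filter (fun l => x ∈ l)).card := by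
    rw [hT, sum_sdiff hl0P]
  have hP : t0 ≤ P.card := hl0c ▸ card_le_card hl0P
  obtain ⟨d, hd'⟩ : ∃ d, P.card = t0 + d := ⟨P.card - t0, by omega⟩
  obtain ⟨u, rfl⟩ : ∃ u, t0 = u + 1 := ⟨t0 - 1, by omega⟩
  have e1 : P.card - (u + 1) = d := by omega
  have e2 : u + 1 - 1 = u := by omega
  rw [e1, e2] at he
  rw [hf]
  rw [hd'] at hd ⊢
  nlinarith

/-- The sum of `1 / (|P| + 1 - |l|)` over the blocks is at least `1`. -/
theorem gdd_sum (P : Finset X) (cl : X → C) (B : Finset (Finset X)) (t0 : ℕ)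
    (hB : ∀ l ∈ B, l ⊆ P ∧ 2 ≤ l.card ∧ l.card ≤ t0)
    (hcl : ∀ l ∈ B, ∀ x ∈ l, ∀ y ∈ l, x ≠ y → cl x ≠ cl y)
    (hex : ∀ x ∈ P, ∀ y ∈ P, cl x ≠ cl y → ∃ l ∈ B, x ∈ l ∧ y ∈ l)
    (huniq : ∀ l ∈ B, ∀ l' ∈ B, ∀ x ∈ l, ∀ y ∈ l, x ∈ l' → y ∈ l' → x ≠ y → l = l')
    (h0 : ∃ l ∈ B, l.card = t0) (ht : 2 * t0 ≤ P.card + 1) :
    (1 : ℝ) ≤ ∑ l ∈ B, 1 / ((P.card : ℝ) + 1 - l.card) := by
  have h1 := gdd_count P cl B t0 hB hcl hex huniq h0
  have ht2 : 2 ≤ t0 := by
    obtain ⟨l, hl, hlc⟩ := h0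
    exact hlc ▸ (hB l hl).2.1
  have h1' : (t0 : ℝ) * (P.card + 1) ≤ ∑ l ∈ B, (l.card : ℝ) + t0 * t0 := by
    exact_mod_cast h1
  have ht' : 2 * (t0 : ℝ) ≤ P.card + 1 := by exact_mod_cast ht
  have ht2' : (2 : ℝ) ≤ t0 := by exact_mod_cast ht2
  have hpos : (0 : ℝ) < t0 * (P.card + 1 - t0) := by
    apply mul_pos <;> linarith
  have h2 : ∀ l ∈ B, (l.card : ℝ) / (t0 * (P.card + 1 - t0)) ≤ 1 / ((P.card : ℝ) + 1 - l.card) := by
    intro l hl
    have h3 : (l.card : ℝ) ≤ t0 := by exact_mod_cast (hB l hl).2.2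
    have h4 : (0 : ℝ) ≤ l.card := by positivity
    rw [div_le_div_iff₀ hpos (by linarith)]
    nlinarith [mul_nonneg (sub_nonneg.mpr h3) (show (0 : ℝ) ≤ P.card + 1 - t0 - l.card by linarith)]
  calc (1 : ℝ) ≤ (∑ l ∈ B, (l.card : ℝ)) / (t0 * (P.card + 1 - t0)) := by
        rw [le_div_iff₀ hpos]
        linarith
    _ = ∑ l ∈ B, (l.card : ℝ) / (t0 * (P.card + 1 - t0)) := by rw [sum_div]
    _ ≤ _ := sum_le_sum h2

end

section

variable {U H : Type*}

/-- A fractional assignment of total at least `1` for every user and load at most `1` on every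
resource gives an injective assignment inside its support. -/
theorem hall_of_weights [Fintype U] [DecidableEq H] (w : U → H → ℝ) (S : U → Finset H)
    (hw : ∀ z, ∀ h ∈ S z, 0 ≤ w z h) (htot : ∀ z, 1 ≤ ∑ h ∈ S z, w z h)
    (hload : ∀ h, ∑ z ∈ univ.filter (fun z => h ∈ S z), w z h ≤ 1) :
    ∃ f : U → H, Function.Injective f ∧ ∀ z, f z ∈ S z := by
  classical
  rw [← all_card_le_biUnion_card_iff_exists_injective]
  intro s
  have h1 : (s.card : ℝ) ≤ ∑ z ∈ s, ∑ h ∈ S z, w z h := by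
    have : (s.card : ℝ) = ∑ _z ∈ s, (1 : ℝ) := by simp
    rw [this]
    exact sum_le_sum fun z _ => htot z
  have h2 : ∑ z ∈ s, ∑ h ∈ S z, w z h = ∑ h ∈ s.biUnion S, ∑ z ∈ s.filter (fun z => h ∈ S z), w z h := by
    have e1 : ∀ z ∈ s, ∑ h ∈ S z, w z h = ∑ h ∈ s.biUnion S, if h ∈ S z then w z h else 0 := by
      intro z hz
      rw [← sum_filter]
      apply sum_congr
      · ext h
        simp only [mem_filter, mem_biUnion]
        exact ⟨fun hh => ⟨⟨z, hz, hh⟩, hh⟩, fun hh => hh.2⟩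
      · intros; rfl
    rw [sum_congr rfl e1, sum_comm]
    refine sum_congr rfl fun h _ => ?_
    rw [sum_filter]
  have h3 : ∀ h ∈ s.biUnion S, ∑ z ∈ s.filter (fun z => h ∈ S z), w z h ≤ 1 := by
    intro h _
    refine le_trans ?_ (hload h)
    refine sum_le_sum_of_subset_of_nonneg (filter_subset_filter _ (subset_univ _)) ?_
    intro z hz _
    exact hw z h (mem_filter.mp hz).2
  have h4 : (s.card : ℝ) ≤ (s.biUnion S).card := by
    calc (s.card : ℝ) ≤ _ := h1
      _ = _ := h2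
      _ ≤ ∑ _h ∈ s.biUnion S, (1 : ℝ) := sum_le_sum h3
      _ = _ := by simp
  exact_mod_cast h4

end

end Pool.Agent.Helper65.LS
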