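import Pool.Agent.Helper65.LS.Gdd
import Pool.Agent.Helper80.LP.Plane

/-!
# MP_47cd0b: a matching of the points off a largest plane into planes

`Q` a plane with the largest number `N` of points, all lines have at most `s ≤ N / 2` points, `o` a
point off `Q`. Then the points off `Q` other than `o` have different planes through them which meet
`Q` in a line and do not contain `o`.
-/

set_option autoImplicit false
set_option linter.unusedSectionVars false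

namespace Pool.Agent.Helper65.LS

open Finset Pool.Agent.Helper28.BPack Pool.Agent.Helper61.Motz Pool.Agent.Helper80.LP

variable {L : Type} [Lattice L] [BoundedOrder L] [Finite L] [IsUpperModularLattice L]
variable [DecidableEq L] [DecidableRel (α := L) (· ≤ ·)]

/-- the points of `Q` on `H` -/
def tr (A : Finset L) (Q H : L) : Finset L := A.filter (fun x => x ≤ H ∧ x ≤ Q)

/-- the planes over `z` which meet `Q` in a line and do not contain `o` -/
def pls (A : Finset L) (Q o z : L) : Finset L :=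
  (((A.filter (· ≤ Q)) ×ˢ (A.filter (· ≤ Q))).filter
    (fun p => p.1 ≠ p.2 ∧ ¬ o ≤ z ⊔ p.1 ⊔ p.2)).image (fun p => z ⊔ p.1 ⊔ p.2)

theorem mem_tr {A : Finset L} {Q H x : L} : x ∈ tr A Q H ↔ x ∈ A ∧ x ≤ H ∧ x ≤ Q := by
  rw [tr, mem_filter]

theorem mem_pls {A : Finset L} {Q o z H : L} : H ∈ pls A Q o z ↔
    ∃ y ∈ A, ∃ y' ∈ A, y ≤ Q ∧ y' ≤ Q ∧ y ≠ y' ∧ ¬ o ≤ z ⊔ y ⊔ y' ∧ z ⊔ y ⊔ y' = H := by
  rw [pls, mem_image]
  constructor
  · rintro ⟨p, hp, rfl⟩
    rw [mem_filter, mem_product, mem_filter, mem_filter] at hp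
    exact ⟨p.1, hp.1.1.1, p.2, hp.1.2.1, hp.1.1.2, hp.1.2.2, hp.2.1, hp.2.2, rfl⟩
  · rintro ⟨y, hy, y', hy', h1, h2, h3, h4, rfl⟩
    exact ⟨(y, y'), mem_filter.mpr ⟨mem_product.mpr ⟨mem_filter.mpr ⟨hy, h1⟩,
      mem_filter.mpr ⟨hy', h2⟩⟩, h3, h4⟩, rfl⟩

/-- A plane over `z` and two points of `Q` is spanned by them. -/
theorem plane_eq {z y y' Q H : L} (hz : IsAtom z) (hy : IsAtom y) (hy' : IsAtom y')
    (hzQ : ¬ z ≤ Q) (hyQ : y ≤ Q) (hyQ' : y' ≤ Q) (hne : y ≠ y') (hH : rk H = 3)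
    (hzH : z ≤ H) (hyH : y ≤ H) (hyH' : y' ≤ H) : z ⊔ y ⊔ y' = H :=
  eq_of_le_of_rk (sup_le (sup_le hzH hyH) hyH')
    (by rw [hH, rk_off hz hy hy' hzQ hyQ hyQ' hne])

theorem tr_le {A : Finset L} (hA : ∀ a ∈ A, IsAtom a) {Q H : L} (hQ : rk Q = 3) (hH : rk H = 3)
    (hne : H ≠ Q) {s : ℕ} (hs2 : 1 ≤ s) (hs : ∀ g, rk g = 2 → (A.filter (· ≤ g)).card ≤ s) :
    (tr A Q H).card ≤ s := by
  by_cases h : ∃ y ∈ tr A Q H, ∃ y' ∈ tr A Q H, y ≠ y'
  · obtain ⟨y, hy, y', hy', hyy⟩ := h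
    rw [mem_tr] at hy hy'
    refine le_trans (card_le_card ?_) (hs (y ⊔ y') (rk_line (hA y hy.1) (hA y' hy'.1) hyy))
    intro x hx
    rw [mem_tr] at hx
    exact mem_filter.mpr ⟨hx.1, le_line_of_planes hQ hH hne (hA y hy.1) (hA y' hy'.1) (hA x hx.1)
      hyy hy.2.2 hy'.2.2 hx.2.2 hy.2.1 hy'.2.1 hx.2.1⟩
  · push Not at h
    refine le_trans (card_le_one.mpr ?_) hs2
    intro a ha b hb
    exact h a ha b hb

/-- The total weight of a user. -/
theorem star_total {A : Finset L} (hA : ∀ a ∈ A, IsAtom a) {Q o : L} (hQ : rk Q = 3)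
    (ho : o ∈ A) (hoQ : ¬ o ≤ Q) (s : ℕ) (hs2 : 2 ≤ s)
    (hs : ∀ g, rk g = 2 → (A.filter (· ≤ g)).card ≤ s)
    (hN : 2 * s ≤ (A.filter (· ≤ Q)).card) {z : L} (hz : z ∈ A) (hzQ : ¬ z ≤ Q) (hzo : z ≠ o) :
    (1 : ℝ) ≤ ∑ H ∈ pls A Q o z, 1 / (((A.filter (· ≤ Q)).card : ℝ) - (tr A Q H).card) := by
  classical
  have hza := hA z hz
  have hoa := hA o ho
  have hl2 : rk (z ⊔ o) = 2 := rk_line hza hoa hzo
  have hpl : ∀ H ∈ pls A Q o z, rk H = 3 ∧ z ≤ H ∧ ¬ o ≤ H ∧ H ≠ Q := by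
    intro H hH
    obtain ⟨y, hy, y', hy', h1, h2, h3, h4, rfl⟩ := mem_pls.mp hH
    have h5 : z ≤ z ⊔ y ⊔ y' := le_sup_left.trans le_sup_left
    exact ⟨rk_off hza (hA y hy) (hA y' hy') hzQ h1 h2 h3, h5, h4, fun h => hzQ (h ▸ h5)⟩
  set P : Finset L := (A.filter (· ≤ Q)).filter (fun y => ¬ y ≤ z ⊔ o) with hP
  have hmP : ∀ y, y ∈ P ↔ (y ∈ A ∧ y ≤ Q) ∧ ¬ y ≤ z ⊔ o := fun y => by
    rw [hP, mem_filter, mem_filter]
  -- points of `Q` on `z o`
  have hone : ((A.filter (· ≤ Q)).filter (fun y => ¬ ¬ y ≤ z ⊔ o)).card ≤ 1 := by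
    rw [card_le_one]
    intro a ha b hb
    rw [mem_filter, mem_filter, not_not] at ha hb
    by_contra hab
    have h1 := line_eq (hA a ha.1.1) (hA b hb.1.1) hab ha.2 hb.2 hl2
    exact hzQ ((le_sup_left : z ≤ z ⊔ o).trans (h1 ▸ sup_le ha.1.2 hb.1.2))
  have hcard : (A.filter (· ≤ Q)).card ≤ P.card + 1 := by
    have := card_filter_add_card_filter_not (s := A.filter (· ≤ Q)) (fun y => ¬ y ≤ z ⊔ o)
    rw [← hP] at this
    omega
  set B : Finset (Finset L) := (pls A Q o z).image (fun H => tr A Q H) with hB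
  have htrP : ∀ H ∈ pls A Q o z, tr A Q H ⊆ P := by
    intro H hH y hy
    obtain ⟨h1, h2, h3, h4⟩ := hpl H hH
    rw [mem_tr] at hy
    rw [hmP]
    refine ⟨⟨hy.1, hy.2.2⟩, fun h => h3 ?_⟩
    have hne : z ≠ y := fun h => hzQ (h ▸ hy.2.2)
    have h5 := line_eq hza (hA y hy.1) hne le_sup_left h hl2
    exact (le_sup_right : o ≤ z ⊔ o).trans (h5 ▸ sup_le h2 hy.2.1)
  have htwo : ∀ H ∈ pls A Q o z, 2 ≤ (tr A Q H).card := by
    intro H hH
    obtain ⟨y, hy, y', hy', h1, h2, h3, h4, rfl⟩ := mem_pls.mp hH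
    have h5 : ({y, y'} : Finset L) ⊆ tr A Q (z ⊔ y ⊔ y') := by
      intro x hx
      rw [mem_insert, mem_singleton] at hx
      rw [mem_tr]
      rcases hx with rfl | rfl
      · exact ⟨hy, le_sup_right.trans le_sup_left, h1⟩
      · exact ⟨hy', le_sup_right, h2⟩
    have h6 := card_le_card h5
    rwa [card_pair h3] at h6
  have htrs : ∀ H ∈ pls A Q o z, (tr A Q H).card ≤ s := fun H hH =>
    tr_le hA hQ (hpl H hH).1 (hpl H hH).2.2.2 (by omega) hs
  have hinj : ∀ H ∈ pls A Q o z, ∀ H' ∈ pls A Q o z, ∀ x ∈ tr A Q H, ∀ y ∈ tr A Q H,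
      x ∈ tr A Q H' → y ∈ tr A Q H' → x ≠ y → H = H' := by
    intro H hH H' hH' x hx y hy hx' hy' hne
    rw [mem_tr] at hx hy hx' hy'
    rw [← plane_eq hza (hA x hx.1) (hA y hy.1) hzQ hx.2.2 hy.2.2 hne (hpl H hH).1 (hpl H hH).2.1
      hx.2.1 hy.2.1]
    exact plane_eq hza (hA x hx.1) (hA y hy.1) hzQ hx.2.2 hy.2.2 hne (hpl H' hH').1
      (hpl H' hH').2.1 hx'.2.1 hy'.2.1
  have hinj' : Set.InjOn (fun H => tr A Q H) (pls A Q o z : Set L) := by
    intro H hH H' hH' h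
    simp only at h
    obtain ⟨x, hx, y, hy, hxy⟩ := one_lt_card.mp (show 1 < (tr A Q H).card from htwo H hH)
    exact hinj H hH H' hH' x hx y hy (h ▸ hx) (h ▸ hy) hxy
  -- classes
  have hcl3 : ∀ y ∈ P, rk (z ⊔ o ⊔ y) = 3 := by
    intro y hy
    rw [hmP] at hy
    rw [rk_sup_atom (hA y hy.1.1) hy.2, hl2]
  -- a block exists
  have hblock : ∃ H, H ∈ pls A Q o z := by
    by_contra hno
    push Not at hno
    have hP1 : 1 < P.card := by omega
    obtain ⟨x, hx, y, hy, hxy⟩ := one_lt_card.mp hP1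
    have hx' := (hmP x).mp hx
    have hy' := (hmP y).mp hy
    have hle : P.card ≤ s := by
      refine le_trans (card_le_card ?_) (hs (x ⊔ y) (rk_line (hA x hx'.1.1) (hA y hy'.1.1) hxy))
      intro w hw
      have hw' := (hmP w).mp hw
      rw [mem_filter]
      refine ⟨hw'.1.1, ?_⟩
      have hall : ∀ v ∈ P, v ≠ x → z ⊔ o ⊔ x = z ⊔ x ⊔ v := by
        intro v hv hvx
        have hv' := (hmP v).mp hv
        have h1 : o ≤ z ⊔ x ⊔ v := by
          by_contra h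
          exact hno _ (mem_pls.mpr ⟨x, hx'.1.1, v, hv'.1.1, hx'.1.2, hv'.1.2, fun h => hvx h.symm,
            h, rfl⟩)
        refine eq_of_le_of_rk (sup_le (sup_le (le_sup_left.trans le_sup_left) h1)
          (le_sup_right.trans le_sup_left)) ?_
        rw [hcl3 x hx, rk_off hza (hA x hx'.1.1) (hA v hv'.1.1) hzQ hx'.1.2 hv'.1.2
          (fun h => hvx h.symm)]
      by_cases hwx : w = x
      · rw [hwx]
        exact le_sup_left
      have h2 := hall w hw hwx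
      have h3 := hall y hy (fun h => hxy h.symm)
      have h4 : z ⊔ o ⊔ x ≠ Q := fun h => hoQ (h ▸ le_sup_right.trans le_sup_left)
      refine le_line_of_planes hQ (hcl3 x hx) h4 (hA x hx'.1.1) (hA y hy'.1.1) (hA w hw'.1.1) hxy
        hx'.1.2 hy'.1.2 hw'.1.2 le_sup_right ?_ ?_
      · rw [h3]
        exact le_sup_right
      · rw [h2]
        exact le_sup_right
    omega
  obtain ⟨H1, hH1⟩ := hblock
  have hBne : B.Nonempty := ⟨_, mem_image_of_mem _ hH1⟩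
  obtain ⟨l0, hl0, hmax⟩ := exists_max_image B (fun l => l.card) hBne
  have hl0s : l0.card ≤ s := by
    obtain ⟨H, hH, rfl⟩ := mem_image.mp hl0
    exact htrs H hH
  have key := gdd_sum P (fun y => z ⊔ o ⊔ y) B l0.card
    (by
      intro l hl
      obtain ⟨H, hH, rfl⟩ := mem_image.mp hl
      exact ⟨htrP H hH, htwo H hH, hmax _ hl⟩)
    (by
      intro l hl x hx y hy hxy hcl
      obtain ⟨H, hH, rfl⟩ := mem_image.mp hl
      obtain ⟨h1, h2, h3, h4⟩ := hpl H hH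
      have hxP := htrP H hH hx
      have hyP := htrP H hH hy
      rw [mem_tr] at hx hy
      have h5 := plane_eq hza (hA x hx.1) (hA y hy.1) hzQ hx.2.2 hy.2.2 hxy h1 h2 hx.2.1 hy.2.1
      have h6 := plane_eq hza (hA x hx.1) (hA y hy.1) hzQ hx.2.2 hy.2.2 hxy (hcl3 x hxP)
        (le_sup_left.trans le_sup_left) le_sup_right (hcl ▸ le_sup_right)
      apply h3
      rw [← h5, h6]
      exact le_sup_right.trans le_sup_left)
    (by
      intro x hx y hy hcl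
      have hx' := (hmP x).mp hx
      have hy' := (hmP y).mp hy
      have hxy : x ≠ y := fun h => hcl (h ▸ rfl)
      have h1 : ¬ o ≤ z ⊔ x ⊔ y := by
        intro h
        apply hcl
        have h2 : rk (z ⊔ x ⊔ y) = 3 := rk_off hza (hA x hx'.1.1) (hA y hy'.1.1) hzQ hx'.1.2
          hy'.1.2 hxy
        have h3 : z ⊔ o ⊔ x = z ⊔ x ⊔ y := eq_of_le_of_rk
          (sup_le (sup_le (le_sup_left.trans le_sup_left) h) (le_sup_right.trans le_sup_left))
          (by rw [hcl3 x hx, h2])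
        have h4 : z ⊔ o ⊔ y = z ⊔ x ⊔ y := eq_of_le_of_rk
          (sup_le (sup_le (le_sup_left.trans le_sup_left) h) le_sup_right)
          (by rw [hcl3 y hy, h2])
        rw [h3, h4]
      have h2 : z ⊔ x ⊔ y ∈ pls A Q o z :=
        mem_pls.mpr ⟨x, hx'.1.1, y, hy'.1.1, hx'.1.2, hy'.1.2, hxy, h1, rfl⟩
      exact ⟨_, mem_image_of_mem _ h2,
        mem_tr.mpr ⟨hx'.1.1, le_sup_right.trans le_sup_left, hx'.1.2⟩,
        mem_tr.mpr ⟨hy'.1.1, le_sup_right, hy'.1.2⟩⟩)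
    (by
      intro l hl l' hl' x hx y hy hx' hy' hxy
      obtain ⟨H, hH, rfl⟩ := mem_image.mp hl
      obtain ⟨H', hH', rfl⟩ := mem_image.mp hl'
      rw [hinj H hH H' hH' x hx y hy hx' hy' hxy])
    ⟨l0, hl0, rfl⟩ (by omega)
  rw [hB, sum_image hinj'] at key
  refine key.trans (sum_le_sum fun H hH => ?_)
  have h1 : ((tr A Q H).card : ℝ) ≤ s := by exact_mod_cast htrs H hH
  have h2 : 2 * (s : ℝ) ≤ (A.filter (· ≤ Q)).card := by exact_mod_cast hN
  have h3 : (2 : ℝ) ≤ s := by exact_mod_cast hs2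
  have h4 : ((A.filter (· ≤ Q)).card : ℝ) ≤ P.card + 1 := by exact_mod_cast hcard
  exact one_div_le_one_div_of_le (by linarith) (by linarith)

/-- **(STAR)** -/
theorem star_matching {A : Finset L} (hA : ∀ a ∈ A, IsAtom a) {Q o : L} (hQ : rk Q = 3)
    (hQmax : ∀ H, rk H = 3 → (A.filter (· ≤ H)).card ≤ (A.filter (· ≤ Q)).card)
    (ho : o ∈ A) (hoQ : ¬ o ≤ Q) (s : ℕ) (hs2 : 2 ≤ s)
    (hs : ∀ g, rk g = 2 → (A.filter (· ≤ g)).card ≤ s)
    (hN : 2 * s ≤ (A.filter (· ≤ Q)).card) :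
    ∃ F : L → L, (∀ z ∈ A, ¬ z ≤ Q → z ≠ o → rk (F z) = 3 ∧ z ≤ F z ∧ ¬ o ≤ F z ∧
        ∃ y ∈ A, ∃ y' ∈ A, y ≤ Q ∧ y' ≤ Q ∧ y ≠ y' ∧ F z = z ⊔ y ⊔ y') ∧
      ∀ z ∈ A, ¬ z ≤ Q → z ≠ o → ∀ z' ∈ A, ¬ z' ≤ Q → z' ≠ o → F z = F z' → z = z' := by
  classical
  set U := {z : L // z ∈ A ∧ ¬ z ≤ Q ∧ z ≠ o} with hU
  haveI : Fintype U := Fintype.ofFinite U
  have hpl : ∀ z : U, ∀ H ∈ pls A Q o z, rk H = 3 ∧ z ≤ H ∧ ¬ o ≤ H ∧ H ≠ Q := by
    intro z H hH
    obtain ⟨y, hy, y', hy', h1, h2, h3, h4, rfl⟩ := mem_pls.mp hH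
    have h5 : (z : L) ≤ (z : L) ⊔ y ⊔ y' := le_sup_left.trans le_sup_left
    exact ⟨rk_off (hA _ z.2.1) (hA y hy) (hA y' hy') z.2.2.1 h1 h2 h3, h5, h4,
      fun h => z.2.2.1 (h5.trans (le_of_eq h))⟩
  have hpos : ∀ z : U, ∀ H ∈ pls A Q o z,
      (0 : ℝ) < ((A.filter (· ≤ Q)).card : ℝ) - (tr A Q H).card := by
    intro z H hH
    have h1 : ((tr A Q H).card : ℝ) ≤ s := by
      exact_mod_cast tr_le hA hQ (hpl z H hH).1 (hpl z H hH).2.2.2 (by omega) hs
    have h2 : 2 * (s : ℝ) ≤ (A.filter (· ≤ Q)).card := by exact_mod_cast hN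
    have h3 : (2 : ℝ) ≤ s := by exact_mod_cast hs2
    linarith
  obtain ⟨f, hf1, hf2⟩ := hall_of_weights (U := U) (H := L)
    (fun _ H => 1 / (((A.filter (· ≤ Q)).card : ℝ) - (tr A Q H).card)) (fun z => pls A Q o z)
    (fun z H hH => le_of_lt (one_div_pos.mpr (hpos z H hH)))
    (fun z => star_total hA hQ ho hoQ s hs2 hs hN z.2.1 z.2.2.1 z.2.2.2)
    (by
      intro H
      rw [sum_const, nsmul_eq_mul]
      by_cases hne : (univ.filter (fun z : U => H ∈ pls A Q o z)).Nonempty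
      · obtain ⟨z0, hz0⟩ := hne
        rw [mem_filter] at hz0
        have hp := hpos z0 H hz0.2
        have hH3 := (hpl z0 H hz0.2).1
        rw [mul_one_div, div_le_one hp]
        have h1 : (univ.filter (fun z : U => H ∈ pls A Q o z)).card + (tr A Q H).card ≤
            (A.filter (· ≤ H)).card := by
          have h2 : ((univ.filter (fun z : U => H ∈ pls A Q o z)).image (fun z : U => (z : L))).card
              = (univ.filter (fun z : U => H ∈ pls A Q o z)).card :=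
            card_image_of_injective _ Subtype.val_injective
          rw [← h2, ← card_union_of_disjoint]
          · apply card_le_card
            intro x hx
            rw [mem_union, mem_image] at hx
            rw [mem_filter]
            rcases hx with ⟨z, hz, rfl⟩ | hx
            · rw [mem_filter] at hz
              exact ⟨z.2.1, (hpl z H hz.2).2.1⟩
            · rw [mem_tr] at hx
              exact ⟨hx.1, hx.2.1⟩
          · rw [disjoint_left]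
            intro x hx hx'
            rw [mem_image] at hx
            obtain ⟨z, hz, rfl⟩ := hx
            exact z.2.2.1 (mem_tr.mp hx').2.2
        have h3 := hQmax H hH3
        have h4 : ((univ.filter (fun z : U => H ∈ pls A Q o z)).card : ℝ) + (tr A Q H).card ≤
            (A.filter (· ≤ Q)).card := by exact_mod_cast h1.trans h3
        linarith
      · rw [not_nonempty_iff_eq_empty] at hne
        rw [hne]
        simp)
  refine ⟨fun z => if h : z ∈ A ∧ ¬ z ≤ Q ∧ z ≠ o then f ⟨z, h⟩ else ⊥, ?_, ?_⟩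
  · intro z hz hzQ hzo
    have h : z ∈ A ∧ ¬ z ≤ Q ∧ z ≠ o := ⟨hz, hzQ, hzo⟩
    simp only [dif_pos h]
    have h1 := hf2 ⟨z, h⟩
    obtain ⟨h2, h3, h4, -⟩ := hpl ⟨z, h⟩ _ h1
    obtain ⟨y, hy, y', hy', k1, k2, k3, -, k5⟩ := mem_pls.mp h1
    exact ⟨h2, h3, h4, y, hy, y', hy', k1, k2, k3, k5.symm⟩
  · intro z hz hzQ hzo z' hz' hzQ' hzo' hzz
    have h : z ∈ A ∧ ¬ z ≤ Q ∧ z ≠ o := ⟨hz, hzQ, hzo⟩
    have h' : z' ∈ A ∧ ¬ z' ≤ Q ∧ z' ≠ o := ⟨hz', hzQ', hzo'⟩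
    simp only [dif_pos h, dif_pos h'] at hzz
    have := hf1 hzz
    exact congrArg Subtype.val this

end Pool.Agent.Helper65.LS
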