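import Mathlib

/-!
# MP_47cd0b: the counting inequality with a thin relation

Points `P` with classes `cl`, traces `t l`, `l ∈ B`; `t l0` is a largest trace. A point `x` of
`t l0` and another point `y` of `P` are in one class, on one trace, or `thin`.
-/

set_option autoImplicit false

namespace Pool.Agent.Helper65.LS

open Finset

variable {ι X C : Type*} [DecidableEq X] [DecidableEq C]

theorem thin_count (P : Finset X) (cl : X → C) (B : Finset ι) (t : ι → Finset X)
    (thin : X → X → Prop) [DecidableRel thin] (l0 : ι) (hl0 : l0 ∈ B)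
    (hP : ∀ l ∈ B, t l ⊆ P) (hmax : ∀ l ∈ B, (t l).card ≤ (t l0).card)
    (hcl : ∀ x ∈ t l0, ∀ y ∈ t l0, x ≠ y → cl x ≠ cl y)
    (hex : ∀ x ∈ t l0, ∀ y ∈ P, y ∉ t l0 → cl x = cl y ∨ (∃ l ∈ B, x ∈ t l ∧ y ∈ t l) ∨ thin x y)
    (huniq : ∀ l ∈ B, ∀ x ∈ t l0, ∀ y ∈ t l0, x ≠ y → x ∈ t l → y ∈ t l → l = l0) :
    (t l0).card * ((t l0).card - 1) * (P.card + 1) ≤
      ((t l0).card - 1) * ∑ l ∈ B, (t l).card +
      (t l0).card * ∑ x ∈ t l0, ((P \ t l0).filter (fun y => thin x y)).card +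
      (t l0).card * ((t l0).card - 1) * (t l0).card := by
  classical
  set s0 := t l0 with hs0
  have hs0P : s0 ⊆ P := hP l0 hl0
  -- double counting
  have hT : ∑ l ∈ B, (t l).card = ∑ x ∈ P, (B.filter (fun l => x ∈ t l)).card := by
    have h1 : ∀ l ∈ B, (t l).card = (P.filter (fun x => x ∈ t l)).card := by
      intro l hl
      congr 1
      ext x
      simp only [mem_filter]
      exact ⟨fun h => ⟨hP l hl h, h⟩, fun h => h.2⟩
    rw [sum_congr rfl h1]
    simp only [card_eq_sum_ones, sum_filter]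
    exact sum_comm
  -- points off `s0`
  have ha : ∀ y ∈ P \ s0, s0.card ≤ (B.filter (fun l => y ∈ t l)).card + 1 +
      (s0.filter (fun x => thin x y)).card := by
    intro y hy
    rw [mem_sdiff] at hy
    have h1 : (s0.filter (fun x => cl x ≠ cl y ∧ ¬ thin x y)).card ≤
        (B.filter (fun l => y ∈ t l)).card := by
      have hch : ∀ x ∈ s0.filter (fun x => cl x ≠ cl y ∧ ¬ thin x y),
          ∃ l, l ∈ B ∧ x ∈ t l ∧ y ∈ t l := by
        intro x hx
        rw [mem_filter] at hx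
        rcases hex x hx.1 y hy.1 hy.2 with h | h | h
        · exact absurd h hx.2.1
        · exact h
        · exact absurd h hx.2.2
      haveI : Nonempty ι := ⟨l0⟩
      choose! f hf using hch
      refine card_le_card_of_injOn f (fun x hx => ?_) ?_
      · have := hf x hx
        simp only [coe_filter, Set.mem_ofPred_eq]
        exact ⟨this.1, this.2.2⟩
      · intro x hx z hz hxz
        by_contra hne
        have hx' := hf x hx
        have hz' := hf z hz
        rw [← hxz] at hz'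
        have := huniq (f x) hx'.1 x (mem_filter.mp hx).1 z (mem_filter.mp hz).1 hne hx'.2.1 hz'.2.1
        exact hy.2 (by rw [hs0, ← this]; exact hx'.2.2)
    have h2 : (s0.filter (fun x => cl x = cl y)).card ≤ 1 := by
      rw [card_le_one]
      intro x hx z hz
      rw [mem_filter] at hx hz
      by_contra hne
      exact hcl x hx.1 z hz.1 hne (hx.2.trans hz.2.symm)
    have h3 : s0 ⊆ s0.filter (fun x => cl x ≠ cl y ∧ ¬ thin x y) ∪
        (s0.filter (fun x => cl x = cl y) ∪ s0.filter (fun x => thin x y)) := by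
      intro x hx
      simp only [mem_union, mem_filter]
      tauto
    have h4 := (card_le_card h3).trans ((card_union_le _ _).trans
      (Nat.add_le_add_left (card_union_le _ _) _))
    omega
  -- points on `s0`
  have hb : ∀ x ∈ s0, P.card ≤ (P.filter (fun y => cl y = cl x)).card +
      (B.filter (fun l => x ∈ t l)).card * (s0.card - 1) +
      ((P \ s0).filter (fun y => thin x y)).card := by
    intro x hx
    have h1 : P ⊆ (P.filter (fun y => cl y = cl x) ∪
        (B.filter (fun l => x ∈ t l)).biUnion (fun l => (t l).erase x)) ∪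
        (P \ s0).filter (fun y => thin x y) := by
      intro y hy
      rw [mem_union, mem_union, mem_filter, mem_biUnion, mem_filter, mem_sdiff]
      by_cases hyx : cl y = cl x
      · exact Or.inl (Or.inl ⟨hy, hyx⟩)
      have hne : y ≠ x := fun h => hyx (h ▸ rfl)
      by_cases hys : y ∈ s0
      · exact Or.inl (Or.inr ⟨l0, mem_filter.mpr ⟨hl0, hx⟩, mem_erase.mpr ⟨hne, hys⟩⟩)
      rcases hex x hx y hy hys with h | ⟨l, hl, hxl, hyl⟩ | h
      · exact absurd h.symm hyx
      · exact Or.inl (Or.inr ⟨l, mem_filter.mpr ⟨hl, hxl⟩, mem_erase.mpr ⟨hne, hyl⟩⟩)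
      · exact Or.inr ⟨⟨hy, hys⟩, h⟩
    refine (card_le_card h1).trans ((card_union_le _ _).trans ?_)
    refine Nat.add_le_add_right ((card_union_le _ _).trans ?_) _
    refine Nat.add_le_add_left (card_biUnion_le_card_mul _ _ _ ?_) _
    intro l hl
    rw [mem_filter] at hl
    rw [card_erase_of_mem hl.2]
    have := hmax l hl.1
    omega
  have hc : ∑ x ∈ s0, (P.filter (fun y => cl y = cl x)).card ≤ P.card := by
    rw [← card_biUnion]
    · exact card_le_card (biUnion_subset.mpr fun x _ => filter_subset _ _)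
    · intro x hx z hz hne
      rw [Function.onFun, disjoint_left]
      intro y hy hy'
      rw [mem_filter] at hy hy'
      exact hcl x hx z hz hne (hy.2.symm.trans hy'.2)
  -- sum over `s0`
  have hd : s0.card * P.card ≤ P.card +
      (∑ x ∈ s0, (B.filter (fun l => x ∈ t l)).card) * (s0.card - 1) +
      ∑ x ∈ s0, ((P \ s0).filter (fun y => thin x y)).card := by
    have h1 : ∑ _x ∈ s0, P.card ≤ ∑ x ∈ s0, ((P.filter (fun y => cl y = cl x)).card +
        (B.filter (fun l => x ∈ t l)).card * (s0.card - 1) +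
        ((P \ s0).filter (fun y => thin x y)).card) :=
      sum_le_sum fun x hx => hb x hx
    rw [sum_const, smul_eq_mul, sum_add_distrib, sum_add_distrib, ← sum_mul] at h1
    omega
  -- sum off `s0`
  have hth : ∑ y ∈ P \ s0, (s0.filter (fun x => thin x y)).card =
      ∑ x ∈ s0, ((P \ s0).filter (fun y => thin x y)).card := by
    simp only [card_eq_sum_ones, sum_filter]
    exact sum_comm
  have he : (P.card - s0.card) * s0.card ≤ ∑ y ∈ P \ s0, (B.filter (fun l => y ∈ t l)).card +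
      (P.card - s0.card) + ∑ x ∈ s0, ((P \ s0).filter (fun y => thin x y)).card := by
    have h1 : (P \ s0).card = P.card - s0.card := card_sdiff_of_subset hs0P
    have h2 : ∑ _y ∈ P \ s0, s0.card ≤ ∑ y ∈ P \ s0, ((B.filter (fun l => y ∈ t l)).card + 1 +
      (s0.filter (fun x => thin x y)).card) := sum_le_sum fun y hy => ha y hy
    rw [sum_const, smul_eq_mul, sum_add_distrib, sum_add_distrib, sum_const, smul_eq_mul, mul_one,
      h1, hth] at h2
    exact h2
  have hf : ∑ l ∈ B, (t l).card = ∑ x ∈ P \ s0, (B.filter (fun l => x ∈ t l)).card +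
      ∑ x ∈ s0, (B.filter (fun l => x ∈ t l)).card := by
    rw [hT, sum_sdiff hs0P]
  rw [hf]
  have hPc : s0.card ≤ P.card := card_le_card hs0P
  obtain ⟨d, hd'⟩ : ∃ d, P.card = s0.card + d := ⟨P.card - s0.card, by omega⟩
  have e1 : P.card - s0.card = d := by omega
  rw [e1] at he
  generalize (∑ x ∈ s0, ((P \ s0).filter (fun y => thin x y)).card) = Th at *
  generalize (∑ x ∈ P \ s0, (B.filter (fun l => x ∈ t l)).card) = R1 at *
  generalize (∑ x ∈ s0, (B.filter (fun l => x ∈ t l)).card) = R0 at *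
  rw [hd'] at hd ⊢
  rcases Nat.eq_zero_or_pos s0.card with h0 | h0
  · rw [h0]
    simp
  obtain ⟨u, hu⟩ : ∃ u, s0.card = u + 1 := ⟨s0.card - 1, by omega⟩
  have e2 : u + 1 - 1 = u := by omega
  rw [hu] at hd he ⊢
  rw [e2] at hd ⊢
  nlinarith [Nat.mul_le_mul_left u he]

theorem thin_arith {u N F S Th M : ℝ} (hu1 : 1 ≤ u) (hN : 2 * (u + 1) ≤ N)
    (h1 : (u + 1) * u * (M + 1) ≤ u * S + (u + 1) * Th + (u + 1) * u * (u + 1))
    (h4 : S / ((u + 1) * (N - (u + 1))) ≤ F) :
    M + 1 - (u + 1) - Th / (u + 1 - 1) ≤ F * (N - (u + 1)) := by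
  have hN' : (0 : ℝ) < N - (u + 1) := by linarith
  have hup : (0 : ℝ) < u + 1 := by linarith
  have hup' : (0 : ℝ) < u := by linarith
  have h5 : S ≤ F * ((u + 1) * (N - (u + 1))) := (div_le_iff₀ (mul_pos hup hN')).mp h4
  have e3 : (u : ℝ) + 1 - 1 = u := by ring
  rw [e3]
  have h6 : (M + 1 - (u + 1)) * (u * (u + 1)) ≤
      (Th / u + F * (N - (u + 1))) * (u * (u + 1)) := by
    have e4 : (Th / u + F * (N - (u + 1))) * (u * (u + 1)) =
        (Th / u * u) * (u + 1) + u * (F * ((u + 1) * (N - (u + 1)))) := by ring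
    rw [e4, div_mul_cancel₀ _ hup'.ne']
    nlinarith [mul_le_mul_of_nonneg_left h5 hup'.le]
  have h7 := le_of_mul_le_mul_right h6 (mul_pos hup' hup)
  linarith

/-- The weights `1 / (N - T l)`, `T l ≥ |t l|`. -/
theorem thin_sum (P : Finset X) (cl : X → C) (B : Finset ι) (t : ι → Finset X)
    (thin : X → X → Prop) [DecidableRel thin] (l0 : ι) (hl0 : l0 ∈ B)
    (hP : ∀ l ∈ B, t l ⊆ P) (hmax : ∀ l ∈ B, (t l).card ≤ (t l0).card)
    (hcl : ∀ x ∈ t l0, ∀ y ∈ t l0, x ≠ y → cl x ≠ cl y)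
    (hex : ∀ x ∈ t l0, ∀ y ∈ P, y ∉ t l0 → cl x = cl y ∨ (∃ l ∈ B, x ∈ t l ∧ y ∈ t l) ∨ thin x y)
    (huniq : ∀ l ∈ B, ∀ x ∈ t l0, ∀ y ∈ t l0, x ≠ y → x ∈ t l → y ∈ t l → l = l0)
    (h2 : 2 ≤ (t l0).card) (N : ℝ) (hN : 2 * ((t l0).card : ℝ) ≤ N) (T : ι → ℝ)
    (hT : ∀ l ∈ B, ((t l).card : ℝ) ≤ T l) (hTN : ∀ l ∈ B, T l < N) :
    (P.card : ℝ) + 1 - (t l0).card -
        (∑ x ∈ t l0, (((P \ t l0).filter (fun y => thin x y)).card : ℝ)) / ((t l0).card - 1) ≤
      (∑ l ∈ B, 1 / (N - T l)) * (N - (t l0).card) := by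
  have h1 := thin_count P cl B t thin l0 hl0 hP hmax hcl hex huniq
  obtain ⟨u, hu⟩ : ∃ u, (t l0).card = u + 1 := ⟨(t l0).card - 1, by omega⟩
  have e2 : u + 1 - 1 = u := by omega
  rw [hu, e2] at h1
  rw [hu] at hN ⊢
  have hu1 : (1 : ℝ) ≤ u := by
    have : 1 ≤ u := by omega
    exact_mod_cast this
  have h1' : ((u : ℝ) + 1) * u * (P.card + 1) ≤ u * ∑ l ∈ B, ((t l).card : ℝ) +
      (u + 1) * ∑ x ∈ t l0, (((P \ t l0).filter (fun y => thin x y)).card : ℝ) +
      (u + 1) * u * (u + 1) := by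
    exact_mod_cast h1
  push_cast at hN ⊢
  have hpos : (0 : ℝ) < (u + 1) * (N - (u + 1)) := by
    apply mul_pos <;> linarith
  have h3 : ∀ l ∈ B, ((t l).card : ℝ) / ((u + 1) * (N - (u + 1))) ≤ 1 / (N - T l) := by
    intro l hl
    have k1 : ((t l).card : ℝ) ≤ u + 1 := by
      have := hmax l hl
      rw [hu] at this
      exact_mod_cast this
    have k2 : (0 : ℝ) ≤ (t l).card := by positivity
    have k3 := hT l hl
    have k4 := hTN l hl
    rw [div_le_div_iff₀ hpos (by linarith)]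
    have k5 := mul_nonneg (sub_nonneg.mpr k1) (show (0 : ℝ) ≤ N - (u + 1) - (t l).card by linarith)
    have k6 := mul_nonneg k2 (sub_nonneg.mpr k3)
    nlinarith
  have h4 : (∑ l ∈ B, ((t l).card : ℝ)) / ((u + 1) * (N - (u + 1))) ≤ ∑ l ∈ B, 1 / (N - T l) := by
    rw [sum_div]
    exact sum_le_sum h3
  generalize (∑ l ∈ B, 1 / (N - T l)) = F at h4 ⊢
  generalize (∑ l ∈ B, ((t l).card : ℝ)) = S at h4 h1'
  generalize (∑ x ∈ t l0, (((P \ t l0).filter (fun y => thin x y)).card : ℝ)) = Th at h1' ⊢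
  generalize (P.card : ℝ) = M at h1' ⊢
  exact thin_arith hu1 hN h1' h4

end Pool.Agent.Helper65.LS
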